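import Pool.Agent.R709.FI.Ex

/-!
Attaching a weighted pendant vertex at a Fiedler extremum need not give a Fiedler extremum.
-/

set_option autoImplicit false

namespace Pool.Agent.Results.MP_a456c8_co.PendantFiedler

open Pool.Agent.R709.FI

/-- There are a connected graph `G` on 8 vertices whose second Laplacian eigenvalue is simple, a
vertex `v` which is an extremum of its Fiedler vector, such that for every `x > 0` the graph with
the pendant edge of weight `x` attached at `v` has a simple second eigenvalue, and such that for
some `x > 0` the new vertex is not an extremum of the Fiedler vector of that graph. -/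
theorem result :
    ∃ (G : SimpleGraph (Fin 8)) (v : Fin 8), G.Connected ∧
      Lam2Simple (lap (wt G)) ∧
      (∀ f, IsFiedler (lap (wt G)) f → IsExtremum f v) ∧
      (∀ x : ℝ, 0 < x → Lam2Simple (lap (pend G v x))) ∧
      ∃ x : ℝ, 0 < x ∧ (∃ f, IsFiedler (lap (pend G v x)) f) ∧
        ∀ f, IsFiedler (lap (pend G v x)) f → ¬ IsExtremum f none := by
  refine ⟨G8, 3, conn, simple_one, extremum_three, ?_, x0, x0_pos, exists_fiedler isLam2_x0,
    not_extremum⟩
  intro x hx
  obtain ⟨μ, h0, h1, h⟩ := exists_eig x hx
  exact simple_of hx h0 h1 h

end Pool.Agent.Results.MP_a456c8_co.PendantFiedler
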